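import Pool.Agent.N662.SE.Stm

/-!
# Project SE: a zero-one law for polymer measures on `ℤ^d` (port of `N75/SD/ZO.lean`, helper413)
-/

set_option autoImplicit false

open MeasureTheory ProbabilityTheory Filter Topology

namespace Pool.Agent.N413.SE

open Pool.Agent.N662.SE TH967.DP

variable {d : ℕ}

/-- environments as functions of a space-time point -/
def cu (η : ℕ × (Fin d → ℤ) → ℝ) : ℕ → (Fin d → ℤ) → ℝ := fun i y => η (i, y)

lemma energy_diff {n : ℕ} (η η' : ℕ × (Fin d → ℤ) → ℝ) (F : Finset (ℕ × (Fin d → ℤ)))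
    (hF : ∀ s, s ∉ F → η s = η' s) (w : Fin n → Step d) :
    |energy (cu η) w - energy (cu η') w| ≤ ∑ s ∈ F, |η s - η' s| := by
  classical
  unfold energy
  rw [← Finset.sum_sub_distrib]
  refine (Finset.abs_sum_le_sum_abs _ _).trans ?_
  have hinj : Function.Injective fun i : Fin n => (i.val + 1, pos w (i.val + 1)) := by
    intro i j h
    have h1 := congrArg Prod.fst h
    simp only at h1
    exact Fin.ext (by omega)
  have h1 : ∑ i : Fin n, |cu η (i.val + 1) (pos w (i.val + 1)) -
      cu η' (i.val + 1) (pos w (i.val + 1))| =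
      ∑ s ∈ Finset.univ.image (fun i : Fin n => (i.val + 1, pos w (i.val + 1))),
        |η s - η' s| := by
    rw [Finset.sum_image (fun i _ j _ h => hinj h)]
    rfl
  rw [h1]
  have h2 : ∑ s ∈ Finset.univ.image (fun i : Fin n => (i.val + 1, pos w (i.val + 1))),
        |η s - η' s| = ∑ s ∈ (Finset.univ.image
        (fun i : Fin n => (i.val + 1, pos w (i.val + 1)))).filter (fun s => s ∈ F),
        |η s - η' s| := by
    symm
    apply Finset.sum_filter_of_ne
    intro s _ hs
    by_contra h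
    apply hs
    rw [hF s h, sub_self, abs_zero]
  rw [h2]
  refine Finset.sum_le_sum_of_subset_of_nonneg ?_ fun s _ _ => abs_nonneg _
  intro s hs
  exact (Finset.mem_filter.1 hs).2

lemma part_nonneg (β : ℝ) (h : Fin d → ℝ) (η : ℕ → (Fin d → ℤ) → ℝ) (n : ℕ) (A : Set (Fin n → Step d)) :
    0 ≤ part β h η n A :=
  Finset.sum_nonneg fun w _ => Set.indicator_nonneg (fun _ _ => (Real.exp_nonneg _)) w

lemma part_univ_pos [NeZero d] (β : ℝ) (h : Fin d → ℝ) (η : ℕ → (Fin d → ℤ) → ℝ) (n : ℕ) : 0 < part β h η n Set.univ := by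
  unfold part
  refine Finset.sum_pos (fun w _ => ?_) Finset.univ_nonempty
  rw [Set.indicator_univ]
  exact Real.exp_pos _

lemma part_le (β : ℝ) (h : Fin d → ℝ) (n : ℕ) (η η' : ℕ × (Fin d → ℤ) → ℝ) (D : ℝ)
    (hD : ∀ w : Fin n → Step d, |β| * |energy (cu η) w - energy (cu η') w| ≤ D)
    (A : Set (Fin n → Step d)) :
    part β h (cu η) n A ≤ Real.exp D * part β h (cu η') n A := by
  classical
  unfold part
  rw [Finset.mul_sum]
  refine Finset.sum_le_sum fun w _ => ?_
  by_cases hw : w ∈ A
  · rw [Set.indicator_of_mem hw, Set.indicator_of_mem hw, ← Real.exp_add]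
    apply Real.exp_le_exp.2
    have h1 := hD w
    rw [← abs_mul] at h1
    have h2 := (abs_le.1 h1).2
    linarith
  · rw [Set.indicator_of_notMem hw, Set.indicator_of_notMem hw, mul_zero]

lemma prob_le [NeZero d] (β : ℝ) (h : Fin d → ℝ) (n : ℕ) (η η' : ℕ × (Fin d → ℤ) → ℝ) (D : ℝ)
    (hD : ∀ w : Fin n → Step d, |β| * |energy (cu η) w - energy (cu η') w| ≤ D)
    (A : Set (Fin n → Step d)) :
    prob β h (cu η) n A ≤ Real.exp (2 * D) * prob β h (cu η') n A := by
  have hD' : ∀ w : Fin n → Step d, |β| * |energy (cu η') w - energy (cu η) w| ≤ D := by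
    intro w
    rw [abs_sub_comm]
    exact hD w
  have h1 := part_le β h n η η' D hD A
  have h2 := part_le β h n η' η D hD' Set.univ
  have p1 := part_univ_pos β h (cu η) n
  have p2 := part_univ_pos β h (cu η') n
  have p3 := part_nonneg β h (cu η') n A
  unfold prob
  rw [div_le_iff₀ p1, mul_comm (Real.exp (2 * D)), mul_assoc, div_mul_eq_mul_div, le_div_iff₀ p2]
  calc part β h (cu η) n A * part β h (cu η') n Set.univ
      ≤ (Real.exp D * part β h (cu η') n A) * (Real.exp D * part β h (cu η) n Set.univ) := by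
        gcongr
    _ = part β h (cu η') n A * (Real.exp (D + D) * part β h (cu η) n Set.univ) := by
        rw [Real.exp_add]
        ring
    _ = _ := by rw [two_mul]

/-- the environments for which the event is unlikely infinitely often -/
def GG (β : ℝ) (h : Fin d → ℝ) (A : ∀ n : ℕ, Set (Fin n → Step d)) (b : ℕ → ℝ) : Set (ℕ × (Fin d → ℤ) → ℝ) :=
  {η | ∃ C : ℕ, ∃ᶠ n in atTop, prob β h (cu η) n (A n) ≤ Real.exp (C - b n)}

lemma GG_congr [NeZero d] (β : ℝ) (h : Fin d → ℝ) (A : ∀ n : ℕ, Set (Fin n → Step d)) (b : ℕ → ℝ) (η η' : ℕ × (Fin d → ℤ) → ℝ)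
    (F : Finset (ℕ × (Fin d → ℤ))) (hF : ∀ s, s ∉ F → η s = η' s) (hη : η ∈ GG β h A b) :
    η' ∈ GG β h A b := by
  obtain ⟨C, hC⟩ := hη
  obtain ⟨D, hD⟩ : ∃ D : ℝ, D = |β| * ∑ s ∈ F, |η s - η' s| := ⟨_, rfl⟩
  refine ⟨C + ⌈2 * D⌉₊, hC.mono fun n hn => ?_⟩
  have h1 : prob β h (cu η') n (A n) ≤ Real.exp (2 * D) * prob β h (cu η) n (A n) := by
    apply prob_le
    intro w
    rw [abs_sub_comm, hD]
    exact mul_le_mul_of_nonneg_left (energy_diff η η' F hF w) (abs_nonneg _)
  calc prob β h (cu η') n (A n) ≤ Real.exp (2 * D) * prob β h (cu η) n (A n) := h1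
    _ ≤ Real.exp (2 * D) * Real.exp (C - b n) := by gcongr
    _ = Real.exp (2 * D + (C - b n)) := (Real.exp_add _ _).symm
    _ ≤ _ := by
        apply Real.exp_le_exp.2
        have := Nat.le_ceil (2 * D)
        push_cast
        linarith

lemma meas_part (β : ℝ) (h : Fin d → ℝ) (n : ℕ) (A : Set (Fin n → Step d)) :
    Measurable fun η : ℕ × (Fin d → ℤ) → ℝ => part β h (cu η) n A := by
  unfold part
  refine Finset.measurable_sum _ fun w _ => ?_
  by_cases hw : w ∈ A
  · have h1 : (fun η : ℕ × (Fin d → ℤ) → ℝ => A.indicator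
        (fun w => Real.exp (β * energy (cu η) w + ∑ k, h k * (pos w n k : ℝ))) w) =
        fun η => Real.exp (β * energy (cu η) w + ∑ k, h k * (pos w n k : ℝ)) := by
      funext η
      rw [Set.indicator_of_mem hw]
    rw [h1]
    refine Real.measurable_exp.comp (Measurable.add_const (Measurable.const_mul ?_ β) _)
    unfold energy
    exact Finset.measurable_sum _ fun i _ => measurable_pi_apply _
  · have h1 : (fun η : ℕ × (Fin d → ℤ) → ℝ => A.indicator
        (fun w => Real.exp (β * energy (cu η) w + ∑ k, h k * (pos w n k : ℝ))) w) = fun η => 0 := by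
      funext η
      rw [Set.indicator_of_notMem hw]
    rw [h1]
    exact measurable_const

lemma meas_GG (β : ℝ) (h : Fin d → ℝ) (A : ∀ n : ℕ, Set (Fin n → Step d)) (b : ℕ → ℝ) :
    MeasurableSet (GG β h A b) := by
  have h1 : GG β h A b = ⋃ C : ℕ, ⋂ N : ℕ, ⋃ n : ℕ, ⋃ _ : n ≥ N,
      {η | prob β h (cu η) n (A n) ≤ Real.exp (C - b n)} := by
    ext η
    unfold GG
    simp only [Set.mem_ofPred_eq, Set.mem_iUnion, Set.mem_iInter, Filter.frequently_atTop,
      exists_prop]
  rw [h1]
  refine MeasurableSet.iUnion fun C => MeasurableSet.iInter fun N => MeasurableSet.iUnion fun n =>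
    MeasurableSet.iUnion fun _ => ?_
  refine measurableSet_le ?_ measurable_const
  exact (meas_part β h n (A n)).div (meas_part β h n Set.univ)

theorem main : S_ZOD := by
  intro d hd Ω mΩ P _ ω hω β h A b hne
  have : NeZero d := ⟨by omega⟩
  classical
  let om : Ω → (ℕ × (Fin d → ℤ) → ℝ) := fun x s => ω s.1 s.2 x
  let E : Set Ω := {x | om x ∈ GG β h A b}
  let sg : ℕ × (Fin d → ℤ) → MeasurableSpace Ω := fun s =>
    MeasurableSpace.comap (fun x => ω s.1 s.2 x) inferInstance
  have hle : ∀ s, sg s ≤ mΩ := fun s => (hω.meas s.1 s.2).comap_le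
  have hind : iIndep sg P := hω.indep.iIndep
  have htail : MeasurableSet[limsup sg cofinite] E := by
    rw [limsup_eq_iInf_iSup]
    rw [MeasurableSpace.measurableSet_iInf]
    intro t
    rw [MeasurableSpace.measurableSet_iInf]
    intro ht
    have hfin : tᶜ.Finite := ht
    let F : Finset (ℕ × (Fin d → ℤ)) := hfin.toFinset
    have hFt : ∀ s, s ∉ F ↔ s ∈ t := by
      intro s
      rw [Set.Finite.mem_toFinset, Set.mem_compl_iff, not_not]
    let cut : Ω → (ℕ × (Fin d → ℤ) → ℝ) := fun x s => if s ∈ F then 0 else om x s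
    have hE : E = cut ⁻¹' (GG β h A b) := by
      ext x
      constructor
      · intro hx
        exact GG_congr β h A b (om x) (cut x) F (fun s hs => (if_neg hs).symm) hx
      · intro hx
        exact GG_congr β h A b (cut x) (om x) F (fun s hs => if_neg hs) hx
    rw [hE]
    have hm : @Measurable _ _ (⨆ a ∈ t, sg a) _ cut := by
      refine @measurable_pi_lambda _ _ _ (⨆ a ∈ t, sg a) _ cut fun s => ?_
      by_cases hs : s ∈ F
      · have h1 : (fun x => cut x s) = fun _ => 0 := by
          funext x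
          exact if_pos hs
        rw [h1]
        exact measurable_const
      · have h1 : (fun x => cut x s) = fun x => ω s.1 s.2 x := by
          funext x
          exact if_neg hs
        rw [h1]
        have h2 : sg s ≤ ⨆ a ∈ t, sg a := le_iSup₂_of_le s ((hFt s).1 hs) le_rfl
        exact (comap_measurable (fun x => ω s.1 s.2 x)).mono h2 le_rfl
    exact hm (meas_GG β h A b)
  have h01 : P E = 0 ∨ P E = 1 := by
    refine measure_zero_or_one_of_measurableSet_limsup (s := sg) (f := cofinite)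
      (p := fun t : Set (ℕ × (Fin d → ℤ)) => t.Finite) (ns := fun a : Finset (ℕ × (Fin d → ℤ)) => (a : Set (ℕ × (Fin d → ℤ))))
      hle hind ?_ ?_ ?_ ?_ htail
    · intro t ht
      exact ht.compl_mem_cofinite
    · intro a c
      exact ⟨a ∪ c, by simp, by simp⟩
    · intro a
      exact a.finite_toSet
    · intro s
      exact ⟨{s}, by simp⟩
  have hEne : P E ≠ 0 := by
    intro h0
    apply hne
    have h1 : {x | ¬ ∀ᶠ n in atTop, Real.exp (-b n) < prob β h (fun i y => ω i y x) n (A n)} ⊆ E := by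
      intro x hx
      rw [Set.mem_ofPred_eq, not_eventually] at hx
      refine ⟨0, hx.mono fun n hn => ?_⟩
      rw [not_lt] at hn
      rw [Nat.cast_zero, zero_sub]
      exact hn
    exact measure_mono_null h1 h0
  have hE1 : P E = 1 := h01.resolve_left hEne
  have hEm : MeasurableSet E := by
    have h1 : limsup sg cofinite ≤ mΩ := by
      rw [limsup_eq_iInf_iSup]
      refine (iInf₂_le Set.univ univ_mem).trans ?_
      exact iSup₂_le fun s _ => hle s
    exact h1 _ htail
  have h2 : ∀ᵐ x ∂P, x ∈ E := (mem_ae_iff_prob_eq_one hEm).2 hE1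
  filter_upwards [h2] with x hx
  obtain ⟨C, hC⟩ := hx
  exact ⟨C, hC⟩

end Pool.Agent.N413.SE
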